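import Mathlib
import Pool.Agent.MP_38e169_lc.Defs
import Pool.Agent.MP_38e169_lc.Family
import Pool.Agent.MP_38e169_lc.Asymptotics

open Pool.Agent.MP_38e169_lc Filter

universe u

/-- For every finite abelian group `G` there is a family of perfectly secure three-party
distributed point functions, one for each domain size `N`, with key size `N ^ o(1)`;
in fact with key size at most `exp (C * sqrt (log N * log log N))`. -/
theorem Pool.Agent.Results.MP_38e169_lc.PerfectThreeParty.result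
    (G : Type u) [AddCommGroup G] [Finite G] :
    ∃ (D : (N : ℕ) → DPF 3 N G) (ℓ : ℕ → ℕ),
      (∀ N, (D N).PerfectlySecure) ∧ (∀ N, (D N).KeySizeLE (ℓ N)) ∧
      (∀ ε : ℝ, 0 < ε → ∀ᶠ N : ℕ in atTop, (ℓ N : ℝ) ≤ (N : ℝ) ^ ε) ∧
      (∃ C : ℝ, ∀ N : ℕ, 3 ≤ N →
        (ℓ N : ℝ) ≤ Real.exp (C * √(Real.log N * Real.log (Real.log N)))) := by
  obtain ⟨q, hq1, hq2⟩ := Nat.exists_infinite_primes (Nat.card G + 3)
  have hq : 2 < q := by omega
  have : Fact q.Prime := ⟨hq2⟩
  have hGpos : 0 < Nat.card G := Nat.card_pos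
  have hcop : Nat.Coprime q (Nat.card G) := by
    rw [Nat.Prime.coprime_iff_not_dvd hq2]
    intro h
    have := Nat.le_of_dvd hGpos h
    omega
  classical
  let mm : ℕ → ℕ := fun N => Nat.find (exists_param N)
  have hmm : ∀ N, 2 ≤ mm N ∧ N ≤ (mm N) ^ ((mm N) ^ 2 - 1) := fun N =>
    Nat.find_spec (exists_param N)
  have hmin : ∀ N, 3 < mm N → (mm N - 1) ^ ((mm N - 1) ^ 2 - 1) < N := by
    intro N h
    have h1 := Nat.find_min (exists_param N) (show mm N - 1 < mm N by omega)
    rw [not_and_or] at h1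
    rcases h1 with h1 | h1
    · omega
    · omega
  have hD : ∀ N, ∃ D : DPF 3 N G, D.PerfectlySecure ∧
      D.KeySizeLE (keyBound q (Nat.card G) (mm N)) := fun N =>
    exists_DPF q hq hcop (mm N) (hmm N).1 N (hmm N).2
  choose D hD1 hD2 using hD
  obtain ⟨C, hC⟩ := key_size_bound q (Nat.card G) (by omega)
  have hbound : ∀ N : ℕ, 3 ≤ N → (keyBound q (Nat.card G) (mm N) : ℝ) ≤
      Real.exp (C * √(Real.log N * Real.log (Real.log N))) := fun N hN =>
    hC N hN (mm N) (hmm N).1 (hmin N)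
  refine ⟨D, fun N => keyBound q (Nat.card G) (mm N), hD1, hD2, ?_, C, hbound⟩
  intro ε hε
  filter_upwards [exp_bound_isSubpolynomial C ε hε, eventually_ge_atTop 3] with N h1 h2
  exact (hbound N h2).trans h1
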